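import Pool.Agent.H15.G.R_seed8.Y665.FW.LeadS
import Pool.Agent.H15.G.R_seed8.TH745.MN.Key
import Pool.Agent.H15.G.R_seed8.TH509.MN.Common

/-! The key lemma for a sequence of row lengths: emptiness at one node. -/

set_option autoImplicit false

namespace Pool.Agent.Y665.FW

open Pool.Agent.TH745.MN Pool.Agent.TH603.EL Pool.Agent.TH603.EL.Scal2 Pool.Agent.TH793.NG
  Pool.Agent.TH176.Nag Pool.Agent.TH603.Sur Pool.Agent.TH113.MN Pool.Agent.Y205.FW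

theorem SSS_finite {m : ℕ → ℕ} {L : ℕ} {a b : ℝ} (ha : 0 < a) (hb : 0 < b) (ω : ℕ → ℝ) :
    (SSS m L a b ω).Finite := by
  obtain ⟨Ω, hΩ⟩ : ∃ Ω : ℝ, ∀ j < L, ω (m j) ≤ Ω := by
    refine ⟨∑ j ∈ Finset.range L, |ω (m j)|, fun j hj => ?_⟩
    exact (le_abs_self _).trans (Finset.single_le_sum (f := fun j => |ω (m j)|) (fun i _ => abs_nonneg _)
      (Finset.mem_range.2 hj))
  refine (Set.finite_Icc ((-⌈Ω / b⌉, 0) : ℤ × ℤ) (⌈Ω / a⌉, L)).subset ?_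
  rintro ⟨p, q⟩ ⟨h1, h2, h3, h4⟩
  dsimp only at h1 h2 h3 h4
  have h5 := hΩ q.toNat (by omega)
  have h6 : (p : ℝ) ≤ Ω / a := by
    rw [le_div_iff₀ ha, mul_comm]
    linarith
  have h7 : -(p : ℝ) ≤ Ω / b := by
    rw [le_div_iff₀ hb]
    linarith
  have h8 : (p : ℝ) ≤ ((⌈Ω / a⌉ : ℤ) : ℝ) := h6.trans (Int.le_ceil _)
  have h9 : -(p : ℝ) ≤ ((⌈Ω / b⌉ : ℤ) : ℝ) := h7.trans (Int.le_ceil _)
  have h10 : p ≤ ⌈Ω / a⌉ := by exact_mod_cast h8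
  have h11 : -p ≤ ⌈Ω / b⌉ := by exact_mod_cast h9
  refine ⟨⟨?_, h1⟩, ⟨h10, h2.le⟩⟩
  show -⌈Ω / b⌉ ≤ p
  linarith

/-- **The key lemma** at one node, with a type of nodes. -/
theorem Emp_keyS {L : ℕ} {m : ℕ → ℕ} (hm : ∀ j, j + 1 < L → m (j + 1) + 3 ≤ m j)
    {κ : Fin 1 → Type} [∀ i, Finite (κ i)]
    {v : (Σ i, κ i) → ℕ} {a b : Fin 1 → ℝ} (ha : ∀ i, 0 < a i) (hb : ∀ i, 0 < b i) {ω : ℕ → ℝ}
    (hω : Thr a b ω) (h : ∀ i, Emp (fun j => v ⟨i, j⟩) (SSS m L (a i) (b i) ω)) :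
    Emp v (WMS m L) := by
  classical
  obtain ⟨x, y, hx, hy, hE⟩ := Pool.Agent.TH509.MN.common_points
    (fun i => SSS_finite (ha i) (hb i) ω) h
  obtain ⟨D, hD⟩ : ∃ D : ℕ, ∀ j < L, m j + 2 * L ≤ D := by
    refine ⟨∑ j ∈ Finset.range L, m j + 2 * L, fun j hj => ?_⟩
    have := Finset.single_le_sum (f := m) (fun i _ => Nat.zero_le _) (Finset.mem_range.2 hj)
    omega
  obtain ⟨ell, hell⟩ : ∃ ell : Fin 1 → ℝ, ∀ i, a i + b i = ell i := ⟨_, fun i => rfl⟩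
  have hell0 : ∀ i, 0 < ell i := fun i => by
    rw [← hell i]
    exact add_pos (ha i) (hb i)
  obtain ⟨k, hk⟩ : ∃ k : ℝ, k = 2 * ∑ i, ell i + ∑ W ∈ Finset.range (D + 1), ω W + 1 := ⟨_, rfl⟩
  have hω0 : ∀ W, 0 < ω W := fun W => (hω W).1
  have hωs : ∀ W ≤ D, ω W ≤ ∑ W ∈ Finset.range (D + 1), ω W := fun W hW =>
    Finset.single_le_sum (fun i _ => (hω0 i).le) (Finset.mem_range.2 (by omega))
  have hωs0 : 0 < ∑ W ∈ Finset.range (D + 1), ω W := (hω0 0).trans_le (hωs 0 (by omega))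
  have hells : ∀ i, ell i ≤ ∑ i, ell i := fun i =>
    Finset.single_le_sum (fun j _ => (hell0 j).le) (Finset.mem_univ i)
  have hk2 : ∀ i, 2 * ell i < k := fun i => by
    have := hells i
    rw [hk]
    linarith
  have hs : ∀ i, ∀ W ≤ D, ω W ≤ k - ell i := fun i W hW => by
    have h1 := hells i
    have h2 := hωs W hW
    have h3 := hell0 i
    rw [hk]
    linarith
  choose xx yy U hT using fun i =>
    Pool.Agent.TH695.MN.exists_tube (F := ℚ) hell0 (κ := k) i (ha i) (hb i) (hell i) (hk2 i)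
  have hchar : CharZero (HK ℚ) :=
    charZero_of_injective_ringHom (f := (HahnSeries.C : ℚ →+* HK ℚ)) HahnSeries.C_injective
  have hU : ∀ (q : Σ i, κ i) (l : ZMod 3),
      evp (hx q.1 q.2) (hy q.1 q.2) (UU (xx q.1) (yy q.1) l) ≠ 0 := by
    intro q l
    unfold UU
    split_ifs
    · rw [map_one]; exact one_ne_zero
    · exact (hT q.1).nx _ _ _ _
    · exact (hT q.1).ny _ _ _ _
  refine ⟨HK ℚ, inferInstance, hchar,
    fun q => evp (hx q.1 q.2) (hy q.1 q.2) (UU (xx q.1) (yy q.1) 1) /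
      evp (hx q.1 q.2) (hy q.1 q.2) (UU (xx q.1) (yy q.1) 0),
    fun q => evp (hx q.1 q.2) (hy q.1 q.2) (UU (xx q.1) (yy q.1) 2) /
      evp (hx q.1 q.2) (hy q.1 q.2) (UU (xx q.1) (yy q.1) 0),
    fun q => div_ne_zero (hU q 1) (hU q 0), fun q => div_ne_zero (hU q 2) (hU q 0), ?_⟩
  intro f hf hLM
  by_contra hne0
  have hf0 : ∀ p ∈ f.support, 0 ≤ p.1 ∧ 0 ≤ p.2 ∧ p.2 < 2 * L ∧ p.1 + 2 * (p.2 % 2) ≤ m (p.2 / 2).toNat :=
    fun p hp => hf hp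
  have hf1 : ∀ p ∈ f.support, 0 ≤ p.1 ∧ 0 ≤ p.2 ∧ p.1 + p.2 ≤ (D : ℤ) := by
    intro p hp
    obtain ⟨h1, h2, h3, h4⟩ := hf0 p hp
    have h5 := hD (p.2 / 2).toNat (by omega)
    refine ⟨h1, h2, ?_⟩
    omega
  have hodd : Odd (Rb ℚ 1).natDegree := by
    rw [natDegree_Rb]
    exact ⟨1, rfl⟩
  obtain ⟨n, ⟨i0, k0, j0, ha0⟩, hb0⟩ := nod_leadS (L := L) (m := m) hodd (by rw [natDegree_Rb])
    cc_injective hT hω (fun j hj => by have := hD j hj; omega) hs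
    (pf_ne (fun m hm => ⟨(hf0 m hm).1, (hf0 m hm).2.1⟩) hne0)
    (GdS_pf ((natDegree_RR_le ell).trans (by omega)) hm hf0)
  rw [← ev_hom _ _ D f] at ha0
  have h2 : ((ev (UU (xx i0) (yy i0)) (hom D f)).coeff n).coeff = 0 := by
    apply hE i0
    · intro m hm
      have hm' : cf (EV (xx i0) (yy i0) (pf f)) n m.1 m.2 ≠ 0 := by
        rw [← ev_hom _ _ D f]
        exact Finsupp.mem_support_iff.1 hm
      exact hb0 i0 m.1 m.2 hm'
    · intro j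
      exact LM_transfer (hx i0 j) (hy i0 j) (hU ⟨i0, j⟩) hf1 (hLM ⟨i0, j⟩) n
  apply ha0
  unfold cf
  rw [h2]
  rfl

theorem key : StKey := by
  intro κ _ v a b ha hb ω hω m L hm h
  have h1 := Emp_keyS (κ := fun _ : Fin 1 => κ) (v := fun q => v q.2) (a := fun _ => a) (b := fun _ => b) hm
    (fun _ => ha) (fun _ => hb) (ω := ω) (fun W => by simpa using hω W) (fun _ => h)
  obtain ⟨K, _, _, x, y, hx, hy, hf⟩ := h1
  exact ⟨K, _, inferInstance, fun i => x ⟨0, i⟩, fun i => y ⟨0, i⟩, fun i => hx _, fun i => hy _,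
    fun f h2 h3 => hf f h2 fun q => by
      obtain ⟨q0, q⟩ := q
      have : q0 = 0 := Subsingleton.elim _ _
      subst this
      exact h3 q⟩

end Pool.Agent.Y665.FW
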