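import Pool.Agent.H15.G.R_seed8.Y205.FW.Defs
import Pool.Agent.H15.G.R_seed8.Y665.FW.GdS
import Pool.Agent.H15.G.R_seed8.TH713.MN.Lead
import Pool.Agent.H15.G.R_seed8.TH236.MN.Lead

/-! The leading coefficient of a polynomial at several nodes, with a sequence of bounds for the degrees of the
sections (after helper713 and helper205). -/

set_option autoImplicit false

namespace Pool.Agent.Y665.FW

open Pool.Agent.TH745.MN Pool.Agent.TH603.EL Pool.Agent.TH603.EL.Scal2 Pool.Agent.TH793.NG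
  Pool.Agent.TH176.Nag Pool.Agent.TH603.Sur Pool.Agent.TH713.MN Pool.Agent.Y205.FW

section
variable {F : Type} [Field F]

/-- the leading coefficient of a nonzero polynomial of weight at most `D` at all the nodes, from the
case of the sections `A(x) + B(x) y` -/
theorem nod_lead_ofS [CharZero F] {β : Type} [Fintype β] [DecidableEq β]
    {R : Polynomial (HK F)} {Rb : Polynomial F}
    (hRb : Rb.natDegree ≤ 3) {κ : ℝ} {a b s : β → ℝ}
    {c : β → F} {xx yy U : β → HR F}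
    (hT : ∀ i, Tb R Rb (a i) (b i) (s i) κ (c i) (xx i) (yy i) (U i))
    (hG : ∀ (m : ℕ) (ω : ℝ), 0 < ω → 2 * m + 1 ≤ ∑ i, (⌈ω / a i⌉₊ + ⌈ω / b i⌉₊) →
      (∀ i, ω ≤ s i) → ∀ A B : Polynomial (HK F), A ≠ 0 ∨ B ≠ 0 → A.natDegree ≤ m →
      (B = 0 ∨ 2 * B.natDegree + Rb.natDegree ≤ 2 * m) →
      ∃ n : ℝ, (∀ i, Low (evA (xx i) A + evA (xx i) B * yy i) n) ∧
        (∃ i k j, cf (evA (xx i) A + evA (xx i) B * yy i) n k j ≠ 0) ∧
        ∀ i k j, cf (evA (xx i) A + evA (xx i) B * yy i) n k j ≠ 0 →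
          j = 0 ∧ a i * k < ω ∧ -(b i * k) < ω)
    {ω : ℕ → ℝ}
    (hω : Thr a b ω) {D L : ℕ} {m : ℕ → ℕ} (hmD : ∀ j < L, m j ≤ D) (hs : ∀ i, ∀ W ≤ D, ω W ≤ s i)
    {p : PXY F} (hp : p ≠ 0) (hg : GdS R m L p) :
    ∃ n : ℝ, (∃ i k j, cf (EV (xx i) (yy i) p) n k j ≠ 0) ∧
      ∀ i k j, cf (EV (xx i) (yy i) p) n k j ≠ 0 → (k, j) ∈ SSS m L (a i) (b i) ω := by
  classical
  obtain ⟨A, B, hA, hB, hAL, hBL, rfl⟩ := hg
  obtain ⟨N, hNA, hNB⟩ : ∃ N, A.natDegree < N ∧ B.natDegree < N :=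
    ⟨max A.natDegree B.natDegree + 1, by omega, by omega⟩
  obtain ⟨G, hGd⟩ : ∃ G : β → ℕ → HR F, ∀ i j, G i j = evA (xx i) (A.coeff j) +
      evA (xx i) (B.coeff j) * yy i := ⟨_, fun _ _ => rfl⟩
  have hval : ∀ i, EV (xx i) (yy i) (A.comp (hR R) + B.comp (hR R) * Polynomial.X) =
      ∑ j ∈ Finset.range N, tz F (j * κ) 0 j * (G i j * U i ^ j) := by
    intro i
    rw [map_add, map_mul, EV_X, EV_comp_hR _ _ _ A N hNA, EV_comp_hR _ _ _ B N hNB,
      Finset.sum_mul, ← Finset.sum_add_distrib]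
    refine Finset.sum_congr rfl fun j _ => ?_
    rw [EV_hR, (hT i).curve, mul_pow, tz_pow, hGd i j]
    ring
  simp only [hval]
  -- the indices with nonzero sections
  obtain ⟨J, hJ⟩ : ∃ J : Finset ℕ,
      J = (Finset.range N).filter fun j => A.coeff j ≠ 0 ∨ B.coeff j ≠ 0 := ⟨_, rfl⟩
  have hJL : ∀ j ∈ J, j < L := by
    intro j h1
    by_contra hcon
    push Not at hcon
    rw [hJ, Finset.mem_filter] at h1
    rcases h1.2 with h9 | h9
    · exact h9 (hAL j hcon)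
    · exact h9 (hBL j hcon)
  have hlead : ∀ j ∈ J, ∃ n : ℝ, (∀ i, Low (G i j) n) ∧ (∃ i k j', cf (G i j) n k j' ≠ 0) ∧
      ∀ i k j', cf (G i j) n k j' ≠ 0 → j' = 0 ∧ a i * k < ω (m j) ∧
        -(b i * k) < ω (m j) := by
    intro j hj
    have hm := hmD j (hJL j hj)
    rw [hJ, Finset.mem_filter] at hj
    obtain ⟨n, h1, h2, h4⟩ := hG (m j) (ω (m j)) (hω (m j)).1 (hω (m j)).2 (fun i => hs i (m j) hm)
      (A.coeff j) (B.coeff j) hj.2 (by
        rcases hA j with h | h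
        · rw [h]; simp
        · exact h) (by
        rcases hB j with h | h
        · left; exact h
        · right
          omega)
    refine ⟨n, fun i => by rw [hGd i j]; exact h1 i, ?_, ?_⟩
    · obtain ⟨i, k, j', h5⟩ := h2
      exact ⟨i, k, j', by rw [hGd i j]; exact h5⟩
    · intro i k j' hij
      rw [hGd i j] at hij
      exact h4 i k j' hij
  choose! nu hnu1 hnu2 hnu3 using hlead
  have hJne : J.Nonempty := by
    by_contra hcon
    rw [Finset.not_nonempty_iff_eq_empty] at hcon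
    apply hp
    have hz : ∀ j, A.coeff j = 0 ∧ B.coeff j = 0 := by
      intro j
      by_cases hj : j < N
      · have : j ∉ J := by rw [hcon]; simp
        rw [hJ, Finset.mem_filter] at this
        push Not at this
        exact this (Finset.mem_range.2 hj)
      · exact ⟨Polynomial.coeff_eq_zero_of_natDegree_lt (by omega),
          Polynomial.coeff_eq_zero_of_natDegree_lt (by omega)⟩
    have hA0 : A = 0 := by ext1 j; simpa using (hz j).1
    have hB0 : B = 0 := by ext1 j; simpa using (hz j).2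
    rw [hA0, hB0]; simp
  obtain ⟨j0, hj0, hmin⟩ := Finset.exists_min_image J (fun j => nu j + j * κ) hJne
  obtain ⟨n0, hn0⟩ : ∃ n0, n0 = nu j0 + j0 * κ := ⟨_, rfl⟩
  -- the coefficients at the level `nu j`
  have hcoef : ∀ (i : β) (j : ℕ), j ∈ J → ∃ v : F, v ≠ 0 ∧ ∀ k l : ℤ,
      cf (G i j * U i ^ j) (nu j) k l = v * cf (G i j) (nu j) k l := by
    intro i j hj
    obtain ⟨u, hu0, hu⟩ := (hT i).cU
    obtain ⟨hU1, hU2⟩ := coeff_unit (hT i).lowU hu j
    refine ⟨u ^ j, pow_ne_zero _ hu0, fun k l => ?_⟩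
    have h2 := (hnu1 j hj i).coeff_mul hU1
    rw [add_zero, hU2] at h2
    unfold cf
    rw [h2, mul_comm, ← Algebra.smul_def, AddMonoidAlgebra.coeff_smul, Finsupp.smul_apply,
      smul_eq_mul]
  -- the terms
  have hterm : ∀ i, ∀ j ∈ Finset.range N, ∀ k j' : ℤ,
      cf (tz F (j * κ) 0 j * (G i j * U i ^ j)) n0 k j' ≠ 0 →
      j ∈ J ∧ nu j + j * κ = n0 ∧ j' = j ∧ cf (G i j) (nu j) k 0 ≠ 0 := by
    intro i j hj k j' h
    rw [cf_tz_mul] at h
    have hjJ : j ∈ J := by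
      by_contra hcon
      rw [hJ, Finset.mem_filter] at hcon
      push Not at hcon
      obtain ⟨hA0, hB0⟩ := hcon hj
      apply h
      rw [hGd i j, hA0, hB0]
      simp [evA, cf_zero]
    obtain ⟨u, hu0, hu⟩ := (hT i).cU
    obtain ⟨hU1, -⟩ := coeff_unit (hT i).lowU hu j
    have hlow := (hnu1 j hjJ i).mul hU1
    rw [add_zero] at hlow
    have hle := hmin j hjJ
    have heq : nu j + j * κ = n0 := by
      apply le_antisymm
      · by_contra hlt
        apply h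
        unfold cf
        rw [hlow _ (by linarith)]
        simp
      · rw [hn0]; exact hle
    have h1 : n0 - j * κ = nu j := by linarith
    rw [h1] at h
    obtain ⟨v, hv0, hv⟩ := hcoef i j hjJ
    rw [hv] at h
    have h4 := right_ne_zero_of_mul h
    have h5 := hnu3 j hjJ _ _ _ h4
    have h6 : j' = j := by have := h5.1; omega
    refine ⟨hjJ, heq, h6, ?_⟩
    rw [h6, sub_self, sub_zero] at h4
    exact h4
  refine ⟨n0, ?_, ?_⟩
  · obtain ⟨i0, k0, j1, h1⟩ := hnu2 j0 hj0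
    have h2 := (hnu3 j0 hj0 _ _ _ h1).1
    rw [h2] at h1
    refine ⟨i0, k0, j0, ?_⟩
    rw [cf_sum, Finset.sum_eq_single j0]
    · rw [cf_tz_mul]
      have h3 : n0 - j0 * κ = nu j0 := by linarith
      obtain ⟨v, hv0, hv⟩ := hcoef i0 j0 hj0
      rw [h3, sub_self, sub_zero, hv]
      exact mul_ne_zero hv0 h1
    · intro j hj hne
      by_contra hcon
      have := (hterm i0 j hj _ _ hcon).2.2.1
      apply hne
      exact_mod_cast this.symm
    · intro h
      exfalso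
      apply h
      rw [hJ] at hj0
      exact (Finset.mem_filter.1 hj0).1
  · intro i k j' h
    rw [cf_sum] at h
    obtain ⟨j, hj, hj'⟩ := Finset.exists_ne_zero_of_sum_ne_zero h
    obtain ⟨h1, h2, h3, h4⟩ := hterm i j hj _ _ hj'
    obtain ⟨_, h5, h6⟩ := hnu3 j h1 _ _ _ h4
    have h8 : j < L := hJL j h1
    rw [h3]
    refine ⟨Int.natCast_nonneg _, by dsimp only; exact_mod_cast h8, ?_, ?_⟩
    · dsimp only
      rw [Int.toNat_natCast]
      exact h5
    · dsimp only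
      rw [Int.toNat_natCast]
      exact h6

theorem nod_leadS [CharZero F] {β : Type} [Fintype β] [DecidableEq β]
    {R : Polynomial (HK F)} {Rb : Polynomial F} (hodd : Odd Rb.natDegree)
    (hRb : Rb.natDegree ≤ 3) {κ : ℝ} {a b s : β → ℝ}
    {c : β → F} (hc : Function.Injective c) {xx yy U : β → HR F}
    (hT : ∀ i, Tb R Rb (a i) (b i) (s i) κ (c i) (xx i) (yy i) (U i)) {ω : ℕ → ℝ}
    (hω : Thr a b ω) {D L : ℕ} {m : ℕ → ℕ} (hmD : ∀ j < L, m j ≤ D) (hs : ∀ i, ∀ W ≤ D, ω W ≤ s i)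
    {p : PXY F} (hp : p ≠ 0) (hg : GdS R m L p) :
    ∃ n : ℝ, (∃ i k j, cf (EV (xx i) (yy i) p) n k j ≠ 0) ∧
      ∀ i k j, cf (EV (xx i) (yy i) p) n k j ≠ 0 → (k, j) ∈ SSS m L (a i) (b i) ω :=
  nod_lead_ofS hRb hT (fun _ _ h1 h2 h3 A B hne hA hB =>
    Pool.Agent.TH236.MN.g_lead hodd hc hT h1 h2 h3 A B hne hA hB) hω hmD hs hp hg

end

end Pool.Agent.Y665.FW
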